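import Pool.Agent.Helper19.RD.Stmts8
import Pool.Agent.Helper73.RD6.ARN

/-! # Row ARR of project RD 8: all data with the roots -/

set_option autoImplicit false

namespace Pool.Agent.Helper88.RD8

open Pool.Agent.Helper18.RD Pool.Agent.Helper19.RD Pool.Agent.Helper73.RD6 Finset

theorem st_ARR (hHALF : ST_HALF) (hUV : ST_UV) (hGR : ST_GR) (hCHI : ST_CHI) (hCHN : ST_CHN) :
    ST_ARR := by
  intro N q a hN hq hc hne
  obtain ⟨S, hS, hcard, hE⟩ := hHALF N q a hq hc
  have hsq : ∀ n ∈ S, IsSquare (q * n + a) := fun n hn => (mem_filter.mp (hS hn)).2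
  have hSne : S.Nonempty := by
    rw [← Finset.card_pos]
    have := Finset.card_pos.2 hne
    omega
  obtain ⟨b, hb⟩ := hSne
  have hlt : ∀ n ∈ S, n < N := fun n hn => mem_range.mp (mem_filter.mp (hS hn)).1
  have hhyp : ∀ n ∈ S, ∀ n' ∈ S, n ≠ n' → Hyp q a b n n' := fun n hn n' hn' hne =>
    { q1 := hq
      cop := hc
      hb := hsq b hb
      hn := hsq n hn
      hn' := hsq n' hn'
      ne := hne
      hE := hE n hn n' hn' }
  refine ⟨S, fun n l => sg q a b n l, cc q a b, dd q a b, (kap q : ℤ), wi N q a,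
    fun n => (mm q a n : ℤ), hcard, ?_⟩
  exact
    { sub := hS
      dat :=
        { sub := fun n hn => mem_range.mpr (hlt n hn)
          kap := kap_cases q
          sgn := fun n l => sg_cases q a b n l
          cd := fun n hn n' hn' hne => (hUV q a b n n' (hhyp n hn n' hn' hne)).2.2.2.1
          w0 := wi_nonneg N q a hN
          gram := fun n hn n' hn' hne =>
            hGR N q a b n n' (hhyp n hn n' hn' hne) (hlt n hn) (hlt n' hn')
          chi := fun p hp => by
            obtain ⟨f, lam, mu, h1, h2, h3, h4⟩ := hCHI q a b p hq hc (hsq b hb) hp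
            exact ⟨f, lam, mu, h1, h2, h3, fun n hn n' hn' hne =>
              h4 n n' (hhyp n hn n' hn' hne)⟩ }
      datN :=
        { dif := fun n hn n' hn' p hp hpq hd => dif_dvd (hsq n hn) (hsq n' hn') hp hpq hd
          chn := fun p hp hp2 hpq => by
            obtain ⟨g, h1, h2⟩ := hCHN q a b p hq hc (hsq b hb) hp hp2 hpq
            exact ⟨g, h1, fun n hn n' hn' hne => h2 n n' (hhyp n hn n' hn' hne)⟩ }
      sq := fun n hn => by
        rw [sq]
        exact mm_sq (hsq n hn)
      pos := fun n hn n' hn' hne => (hUV q a b n n' (hhyp n hn n' hn' hne)).2.2.2.2.2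
      dv := fun n hn n' hn' hne => by
        obtain ⟨h1, -, h3, -⟩ := hUV q a b n n' (hhyp n hn n' hn' hne)
        refine ⟨vv q a b n n', ⟨uu q a b n n' * kap q, ?_⟩, h3⟩
        have h4 : uu q a b n n' * vv q a b n n' * kap q =
            vv q a b n n' * (uu q a b n n' * kap q) := by ring
        exact (h4.symm.trans h1).symm
      sg := ⟨b, hsq b hb, fun _ _ => rfl, fun n hn => hE n hn b hb⟩ }

end Pool.Agent.Helper88.RD8

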